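import Mathlib

set_option autoImplicit false

open Polynomial Finset

namespace Pool.Agent.Results.MP_74870a_nt.FullCongruence

/-- The `q`-shifted factorial `(a;q)_k = (1-a)(1-aq)⋯(1-aq^{k-1})`. -/
def qPoch {F : Type*} [CommRing F] (a q : F) (k : ℕ) : F :=
  ∏ j ∈ range k, (1 - a * q ^ j)

/-- The rational function `R_t(q)` of the problem, in the indeterminate `q = RatFunc.X`. -/
noncomputable def R (n t : ℕ) : RatFunc ℚ :=
  (qPoch RatFunc.X (RatFunc.X ^ 2) ((n ^ t - 1) / 4) *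
      qPoch (RatFunc.X ^ (2 * n)) (RatFunc.X ^ (2 * n)) ((n ^ (t - 1) - 1) / 4)) /
    (qPoch (RatFunc.X ^ 2) (RatFunc.X ^ 2) ((n ^ t - 1) / 4) *
      qPoch (RatFunc.X ^ n) (RatFunc.X ^ (2 * n)) ((n ^ (t - 1) - 1) / 4))

/-- `F ≡ G (mod P)` for rational functions: writing `F - G = A/B` in lowest terms, `P` divides the
numerator `A` and the denominator `B` is coprime to `P`. -/
def CongrMod (F G : RatFunc ℚ) (P : ℚ[X]) : Prop :=
  P ∣ (F - G).num ∧ IsCoprime (F - G).denom P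

section combinatorial

variable {S : Type*} [CommRing S]

lemma prod_odd (x : S) (M : ℕ) :
    ∏ j ∈ range M, (1 - x ^ (2 * j + 1)) =
      ∏ k ∈ range (2 * M + 1), (if Odd k then 1 - x ^ k else 1) := by
  induction M with
  | zero => simp
  | succ M ih =>
    rw [prod_range_succ, ih, show 2 * (M + 1) + 1 = (2 * M + 1) + 1 + 1 by ring,
      prod_range_succ _ (2 * M + 1 + 1), prod_range_succ _ (2 * M + 1)]
    have h1 : Odd (2 * M + 1) := ⟨M, rfl⟩
    have h2 : ¬ Odd (2 * M + 1 + 1) := by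
      rw [Nat.not_odd_iff_even]; exact ⟨M + 1, by ring⟩
    simp [h1, h2]

lemma prod_even (x : S) (M : ℕ) :
    ∏ j ∈ range M, (1 - x ^ (2 * j + 2)) =
      ∏ k ∈ range (2 * M + 1), (if k ≠ 0 ∧ Even k then 1 - x ^ k else 1) := by
  induction M with
  | zero => simp
  | succ M ih =>
    rw [prod_range_succ, ih, show 2 * (M + 1) + 1 = (2 * M + 1) + 1 + 1 by ring,
      prod_range_succ _ (2 * M + 1 + 1), prod_range_succ _ (2 * M + 1)]
    have h1 : ¬ Even (2 * M + 1) := by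
      rw [Nat.not_even_iff_odd]; exact ⟨M, rfl⟩
    have h2 : Even (2 * M + 1 + 1) := ⟨M + 1, by ring⟩
    simp [h1, h2]

lemma prod_multiples (F : ℕ → S) (n a b : ℕ) (hF : ∀ k, ¬ n ∣ k → F k = 1) (hb : 1 ≤ b)
    (hbn : b ≤ n) :
    ∏ k ∈ range (n * a + b), F k = ∏ i ∈ range (a + 1), F (n * i) := by
  have hn : 0 < n := by omega
  symm
  rw [← Finset.prod_image (s := range (a + 1)) (g := fun i => n * i) (f := F)]
  · apply Finset.prod_subset
    · intro k hk
      simp only [mem_image, mem_range] at hk ⊢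
      obtain ⟨i, hi, rfl⟩ := hk
      have : n * i ≤ n * a := Nat.mul_le_mul_left n (by omega)
      omega
    · intro k hk hk'
      apply hF
      rintro ⟨i, rfl⟩
      apply hk'
      simp only [mem_image, mem_range] at hk ⊢
      refine ⟨i, ?_, rfl⟩
      by_contra hcon
      have : n * (a + 1) ≤ n * i := Nat.mul_le_mul_left n (by omega)
      rw [Nat.mul_add] at this
      omega
  · intro i _ j _ hij
    exact Nat.eq_of_mul_eq_mul_left hn hij

/-- The odd part of the product, multiples of `n` removed. -/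
def A (x : S) (n m : ℕ) : S := ∏ k ∈ range m, (if ¬ n ∣ k ∧ Odd k then 1 - x ^ k else 1)

/-- The even part of the product, multiples of `n` removed. -/
def B (x : S) (n m : ℕ) : S := ∏ k ∈ range m, (if ¬ n ∣ k ∧ Even k then 1 - x ^ k else 1)

lemma qPoch_odd (x : S) (n a M M' : ℕ) (hn : Odd n) (hM : 2 * M + 1 = n * (2 * M') + a)
    (ha : 1 ≤ a) (han : a ≤ n) :
    qPoch x (x ^ 2) M = qPoch (x ^ n) (x ^ (2 * n)) M' * A x n (2 * M + 1) := by
  have e1 : qPoch x (x ^ 2) M = ∏ k ∈ range (2 * M + 1), (if Odd k then 1 - x ^ k else 1) := by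
    rw [← prod_odd]
    unfold qPoch
    refine prod_congr rfl fun j _ => ?_
    ring
  have e2 : qPoch (x ^ n) (x ^ (2 * n)) M' =
      ∏ i ∈ range (2 * M' + 1), (if Odd i then 1 - (x ^ n) ^ i else 1) := by
    rw [← prod_odd]
    unfold qPoch
    refine prod_congr rfl fun j _ => ?_
    ring
  have e3 : ∏ k ∈ range (2 * M + 1), (if n ∣ k ∧ Odd k then 1 - x ^ k else 1) =
      ∏ i ∈ range (2 * M' + 1), (if Odd i then 1 - (x ^ n) ^ i else 1) := by
    rw [hM, prod_multiples _ n (2 * M') a _ ha han]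
    · refine prod_congr rfl fun i _ => ?_
      simp only [dvd_mul_right, true_and, Nat.odd_mul, hn, ← pow_mul]
    · intro k hk
      simp [hk]
  rw [e1, e2, ← e3]
  unfold A
  rw [← prod_mul_distrib]
  refine prod_congr rfl fun k _ => ?_
  by_cases h1 : n ∣ k <;> by_cases h2 : Odd k <;> simp [h1, h2]

lemma qPoch_even (x : S) (n a M M' : ℕ) (hn : Odd n) (hM : 2 * M + 1 = n * (2 * M') + a)
    (ha : 1 ≤ a) (han : a ≤ n) :
    qPoch (x ^ 2) (x ^ 2) M = qPoch (x ^ (2 * n)) (x ^ (2 * n)) M' * B x n (2 * M + 1) := by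
  have e1 : qPoch (x ^ 2) (x ^ 2) M =
      ∏ k ∈ range (2 * M + 1), (if k ≠ 0 ∧ Even k then 1 - x ^ k else 1) := by
    rw [← prod_even]
    unfold qPoch
    refine prod_congr rfl fun j _ => ?_
    ring
  have e2 : qPoch (x ^ (2 * n)) (x ^ (2 * n)) M' =
      ∏ i ∈ range (2 * M' + 1), (if i ≠ 0 ∧ Even i then 1 - (x ^ n) ^ i else 1) := by
    rw [← prod_even]
    unfold qPoch
    refine prod_congr rfl fun j _ => ?_
    ring
  have hn0 : n ≠ 0 := by omega
  have hne : ¬ Even n := Nat.not_even_iff_odd.mpr hn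
  have e3 : ∏ k ∈ range (2 * M + 1), (if n ∣ k ∧ k ≠ 0 ∧ Even k then 1 - x ^ k else 1) =
      ∏ i ∈ range (2 * M' + 1), (if i ≠ 0 ∧ Even i then 1 - (x ^ n) ^ i else 1) := by
    rw [hM, prod_multiples _ n (2 * M') a _ ha han]
    · refine prod_congr rfl fun i _ => ?_
      simp only [dvd_mul_right, true_and, ne_eq, mul_eq_zero, hn0, false_or, Nat.even_mul, hne,
        ← pow_mul]
    · intro k hk
      simp [hk]
  rw [e1, e2, ← e3]
  unfold B
  rw [← prod_mul_distrib]
  refine prod_congr rfl fun k _ => ?_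
  by_cases h1 : n ∣ k
  · by_cases h2 : k = 0 <;> by_cases h3 : Even k <;> simp [h1, h2, h3]
  · have h0 : k ≠ 0 := by
      rintro rfl; exact h1 (dvd_zero n)
    by_cases h3 : Even k <;> simp [h1, h0, h3]

end combinatorial

section analytic

variable {K : Type*} [Field K]

lemma sum_shift (E : ℕ → K) (N M : ℕ) (hanti : ∀ k, E (k + N) = - E k)
    (hsym : ∑ k ∈ range N, E k = 2 * ∑ k ∈ range M, E k) (L : ℕ) :
    ∑ k ∈ range (2 * N * L + M), (k : K) * E k = ∑ k ∈ range M, (k : K) * E k := by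
  have hper : ∀ L k, E (2 * N * L + k) = E k := by
    intro L
    induction L with
    | zero => intro k; simp
    | succ L ih =>
      intro k
      rw [show 2 * N * (L + 1) + k = (2 * N * L + k + N) + N by ring, hanti, hanti, neg_neg, ih]
  have h2N : ∑ k ∈ range (2 * N), E k = 0 := by
    rw [two_mul, sum_range_add, ← sum_add_distrib]
    apply sum_eq_zero
    intro k _
    rw [add_comm N k, hanti]; ring
  have hk2N : ∑ k ∈ range (2 * N), (k : K) * E k = - (N : K) * ∑ k ∈ range N, E k := by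
    rw [two_mul, sum_range_add, ← sum_add_distrib, mul_sum]
    apply sum_congr rfl
    intro k _
    rw [add_comm N k, hanti]; push_cast; ring
  have hT : ∀ L : ℕ, ∑ k ∈ range (2 * N * L), (k : K) * E k
      = - (N : K) * L * ∑ k ∈ range N, E k := by
    intro L
    induction L with
    | zero => simp
    | succ L ih =>
      rw [show 2 * N * (L + 1) = 2 * N * L + 2 * N by ring, sum_range_add, ih]
      have : ∑ k ∈ range (2 * N), ((2 * N * L + k : ℕ) : K) * E (2 * N * L + k) =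
          (2 * N * L : ℕ) * ∑ k ∈ range (2 * N), E k + ∑ k ∈ range (2 * N), (k : K) * E k := by
        rw [mul_sum, ← sum_add_distrib]
        apply sum_congr rfl
        intro k _
        rw [hper]; push_cast; ring
      rw [this, h2N, hk2N]
      push_cast; ring
  rw [sum_range_add, hT]
  have : ∑ k ∈ range M, ((2 * N * L + k : ℕ) : K) * E (2 * N * L + k) =
      (2 * N * L : ℕ) * ∑ k ∈ range M, E k + ∑ k ∈ range M, (k : K) * E k := by
    rw [mul_sum, ← sum_add_distrib]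
    apply sum_congr rfl
    intro k _
    rw [hper]; push_cast; ring
  rw [this, hsym]
  push_cast; ring

lemma prod_shift (G : ℕ → K) (N M : ℕ) (hG : ∀ k, G k ≠ 0) (hanti : ∀ k, G (k + N) = (G k)⁻¹)
    (L : ℕ) : ∏ k ∈ range (2 * N * L + M), G k = ∏ k ∈ range M, G k := by
  have hper : ∀ L k, G (2 * N * L + k) = G k := by
    intro L
    induction L with
    | zero => intro k; simp
    | succ L ih =>
      intro k
      rw [show 2 * N * (L + 1) + k = (2 * N * L + k + N) + N by ring, hanti, hanti, inv_inv, ih]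
  have h2N : ∏ k ∈ range (2 * N), G k = 1 := by
    rw [two_mul, prod_range_add, ← prod_mul_distrib]
    apply prod_eq_one
    intro k _
    rw [add_comm N k, hanti]
    exact mul_inv_cancel₀ (hG k)
  have hT : ∀ L : ℕ, ∏ k ∈ range (2 * N * L), G k = 1 := by
    intro L
    induction L with
    | zero => simp
    | succ L ih =>
      rw [show 2 * N * (L + 1) = 2 * N * L + 2 * N by ring, prod_range_add, ih]
      simp only [hper, h2N, mul_one]
  rw [prod_range_add, hT]
  simp only [hper, one_mul]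

/-- Alternating sums over a range of odd length `4 M + 1` with the multiples of `n` removed. -/
lemma alt_sum_zero (M : ℕ) : ∑ k ∈ range (2 * M), ((-1 : K)) ^ k = 0 := by
  induction M with
  | zero => simp
  | succ M ih =>
    rw [show 2 * (M + 1) = 2 * M + 1 + 1 by ring, sum_range_succ, sum_range_succ, ih]
    rw [pow_succ]; ring

lemma alt_sum_odd (M : ℕ) : ∑ k ∈ range (2 * M + 1), ((-1 : K)) ^ k = 1 := by
  rw [sum_range_succ, alt_sum_zero]; simp

lemma sum_multiples (F : ℕ → K) (n a b : ℕ) (hF : ∀ k, ¬ n ∣ k → F k = 0) (hb : 1 ≤ b)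
    (hbn : b ≤ n) :
    ∑ k ∈ range (n * a + b), F k = ∑ i ∈ range (a + 1), F (n * i) := by
  have hn : 0 < n := by omega
  symm
  rw [← Finset.sum_image (s := range (a + 1)) (g := fun i => n * i) (f := F)]
  · apply Finset.sum_subset
    · intro k hk
      simp only [mem_image, mem_range] at hk ⊢
      obtain ⟨i, hi, rfl⟩ := hk
      have : n * i ≤ n * a := Nat.mul_le_mul_left n (by omega)
      omega
    · intro k hk hk'
      apply hF
      rintro ⟨i, rfl⟩
      apply hk'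
      simp only [mem_image, mem_range] at hk ⊢
      refine ⟨i, ?_, rfl⟩
      by_contra hcon
      have : n * (a + 1) ≤ n * i := Nat.mul_le_mul_left n (by omega)
      rw [Nat.mul_add] at this
      omega
  · intro i _ j _ hij
    exact Nat.eq_of_mul_eq_mul_left hn hij

lemma alt_sum_coprime (n a M M' : ℕ) (hn : Odd n) (hM : 2 * M + 1 = n * (2 * M') + a)
    (ha : 1 ≤ a) (han : a ≤ n) :
    ∑ k ∈ range (2 * M + 1), (if n ∣ k then (0 : K) else (-1) ^ k) = 0 := by
  have h1 : ∑ k ∈ range (2 * M + 1), (if n ∣ k then ((-1 : K)) ^ k else 0) = 1 := by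
    rw [hM, sum_multiples _ n (2 * M') a _ ha han]
    · refine Eq.trans (sum_congr rfl fun i _ => ?_) (alt_sum_odd (K := K) M')
      simp only [dvd_mul_right, if_true]
      rw [pow_mul, hn.neg_one_pow]
    · intro k hk
      simp [hk]
  have h2 : ∑ k ∈ range (2 * M + 1), (if n ∣ k then (0 : K) else (-1) ^ k) +
      ∑ k ∈ range (2 * M + 1), (if n ∣ k then ((-1 : K)) ^ k else 0) = 1 := by
    rw [← sum_add_distrib]
    refine Eq.trans (sum_congr rfl fun i _ => ?_) (alt_sum_odd (K := K) M)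
    by_cases h : n ∣ i <;> simp [h]
  rw [h1] at h2
  linear_combination h2

/-- The alternating weight `(-1)^k ζ^k/(1-ζ^k)`, zero at the multiples of `n`. -/
noncomputable def E (ζ : K) (n k : ℕ) : K := if n ∣ k then 0 else (-1) ^ k * (ζ ^ k / (1 - ζ ^ k))

lemma E_add (ζ : K) (n N : ℕ) (hN : Odd N) (hnN : n ∣ N) (hζ : ζ ^ N = 1) (k : ℕ) :
    E ζ n (k + N) = - E ζ n k := by
  unfold E
  by_cases h : n ∣ k
  · have : n ∣ k + N := dvd_add h hnN
    simp [h, this]
  · have : ¬ n ∣ k + N := fun h' => h ((Nat.dvd_add_left hnN).mp h')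
    simp only [h, this, if_false, pow_add, hζ, mul_one, hN.neg_one_pow]
    ring

lemma E_sub (ζ : K) (n N : ℕ) (hN : Odd N) (hnN : n ∣ N) (hζ : ζ ^ N = 1)
    (hne : ∀ k, ¬ n ∣ k → ζ ^ k ≠ 1) (k : ℕ) (hk : k ≤ N) :
    E ζ n (N - k) = E ζ n k + (if n ∣ k then 0 else (-1) ^ k) := by
  unfold E
  by_cases h : n ∣ k
  · have : n ∣ N - k := Nat.dvd_sub hnN h
    simp [h, this]
  · have h' : ¬ n ∣ N - k := by
      intro h'
      apply h
      have := Nat.dvd_sub hnN h'
      rwa [Nat.sub_sub_self hk] at this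
    simp only [h, h', if_false]
    have hz : ζ ≠ 0 := by
      rintro rfl
      have : N ≠ 0 := by rintro rfl; exact absurd hN (by decide)
      simp [this] at hζ
    have e1 : ζ ^ (N - k) = (ζ ^ k)⁻¹ := by
      apply eq_inv_of_mul_eq_one_left
      rw [← pow_add, Nat.sub_add_cancel hk, hζ]
    have e2 : ((-1 : K)) ^ (N - k) = - (-1) ^ k := by
      have : ((-1 : K)) ^ (N - k) * (-1) ^ k = -1 := by
        rw [← pow_add, Nat.sub_add_cancel hk, hN.neg_one_pow]
      have h2 : ((-1 : K)) ^ k * (-1) ^ k = 1 := by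
        rw [← pow_add]; exact Even.neg_one_pow ⟨k, rfl⟩
      linear_combination (-1) ^ k * this - (-1) ^ (N - k) * h2
    rw [e1, e2]
    have h1 : (1 - ζ ^ k) ≠ 0 := sub_ne_zero.mpr (hne k h).symm
    have h3 : ζ ^ k ≠ 0 := pow_ne_zero _ hz
    have h4 : (1 - (ζ ^ k)⁻¹) ≠ 0 := by
      intro h5
      apply hne k h
      have h6 : (ζ ^ k)⁻¹ = 1 := (sub_eq_zero.mp h5).symm
      exact inv_eq_one.mp h6
    have h5 : (ζ ^ k)⁻¹ / (1 - (ζ ^ k)⁻¹) = - 1 / (1 - ζ ^ k) := by
      rw [div_eq_div_iff h4 h1]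
      field_simp
      ring
    rw [h5]
    field_simp
    ring

lemma E_sym (ζ : K) (n a N M M' : ℕ) (hn : Odd n) (hM : 2 * M + 1 = n * (2 * M') + a)
    (ha : 1 ≤ a) (han : a ≤ n) (hN : N = 4 * M + 1) (hnN : n ∣ N) (hζ : ζ ^ N = 1)
    (hne : ∀ k, ¬ n ∣ k → ζ ^ k ≠ 1) :
    ∑ k ∈ range N, E ζ n k = 2 * ∑ k ∈ range (2 * M + 1), E ζ n k := by
  have hNodd : Odd N := ⟨2 * M, by omega⟩
  have h0 : E ζ n 0 = 0 := by simp [E]
  have e1 : ∑ k ∈ range (2 * M), E ζ n (2 * M + 1 + k) =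
      ∑ k ∈ range (2 * M), E ζ n (N - (k + 1)) := by
    rw [← sum_range_reflect]
    refine sum_congr rfl fun k hk => ?_
    rw [mem_range] at hk
    congr 1
    omega
  have e2 : ∑ k ∈ range (2 * M), E ζ n (N - (k + 1)) =
      ∑ k ∈ range (2 * M), (E ζ n (k + 1) + (if n ∣ (k + 1) then 0 else (-1) ^ (k + 1))) := by
    refine sum_congr rfl fun k hk => ?_
    rw [mem_range] at hk
    exact E_sub ζ n N hNodd hnN hζ hne (k + 1) (by omega)
  have e3 : ∑ k ∈ range (2 * M), E ζ n (k + 1) = ∑ k ∈ range (2 * M + 1), E ζ n k := by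
    rw [sum_range_succ' _ (2 * M), h0, add_zero]
  have e4 : ∑ k ∈ range (2 * M), (if n ∣ (k + 1) then (0 : K) else (-1) ^ (k + 1)) = 0 := by
    have := alt_sum_coprime (K := K) n a M M' hn hM ha han
    rw [sum_range_succ' _ (2 * M)] at this
    simpa using this
  rw [hN, show 4 * M + 1 = (2 * M + 1) + 2 * M by ring, sum_range_add, e1, e2, sum_add_distrib, e3,
    e4]
  ring

end analytic

section evaluation

variable {K : Type*} [Field K]

/-- Logarithmic derivative of a product of polynomials at a point. -/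
lemma eval_deriv_prod (g : ℕ → K[X]) (ζ : K) (l : ℕ → K)
    (hl : ∀ k, ζ * (derivative (g k)).eval ζ = (g k).eval ζ * l k) (m : ℕ) :
    ζ * (derivative (∏ k ∈ range m, g k)).eval ζ =
      (∏ k ∈ range m, g k).eval ζ * ∑ k ∈ range m, l k := by
  induction m with
  | zero => simp
  | succ m ih =>
    rw [prod_range_succ, sum_range_succ, derivative_mul, eval_add, eval_mul, eval_mul, eval_mul]
    linear_combination (g m).eval ζ * ih + (∏ k ∈ range m, g k).eval ζ * hl m

/-- The weight occurring in the logarithmic derivative of the odd part. -/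
noncomputable def lA (ζ : K) (n k : ℕ) : K :=
  if ¬ n ∣ k ∧ Odd k then - (k : K) * (ζ ^ k / (1 - ζ ^ k)) else 0

/-- The weight occurring in the logarithmic derivative of the even part. -/
noncomputable def lB (ζ : K) (n k : ℕ) : K :=
  if ¬ n ∣ k ∧ Even k then - (k : K) * (ζ ^ k / (1 - ζ ^ k)) else 0

lemma l_factor (ζ : K) (n k : ℕ) (hne : ∀ k, ¬ n ∣ k → ζ ^ k ≠ 1) (h : ¬ n ∣ k) :
    ζ * (derivative (1 - X ^ k : K[X])).eval ζ =
      (1 - X ^ k : K[X]).eval ζ * (- (k : K) * (ζ ^ k / (1 - ζ ^ k))) := by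
  have h1 : (1 - ζ ^ k) ≠ 0 := sub_ne_zero.mpr (hne k h).symm
  have hk : k ≠ 0 := by rintro rfl; exact h (dvd_zero n)
  obtain ⟨j, rfl⟩ := Nat.exists_eq_succ_of_ne_zero hk
  simp only [derivative_sub, derivative_one, derivative_X_pow, eval_sub, eval_one, eval_pow, eval_X,
    zero_sub, eval_neg, eval_mul, Nat.succ_eq_add_one, Nat.add_sub_cancel]
  rw [Nat.succ_eq_add_one] at h1
  field_simp
  simp [eval_natCast]
  ring

lemma A_logderiv (ζ : K) (n : ℕ) (hne : ∀ k, ¬ n ∣ k → ζ ^ k ≠ 1) (m : ℕ) :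
    ζ * (derivative (A (X : K[X]) n m)).eval ζ =
      (A (X : K[X]) n m).eval ζ * ∑ k ∈ range m, lA ζ n k := by
  apply eval_deriv_prod
  intro k
  unfold lA
  by_cases h : ¬ n ∣ k ∧ Odd k
  · simp only [h, if_true, not_false_eq_true, and_self]
    exact l_factor ζ n k hne h.1
  · simp [h]

lemma B_logderiv (ζ : K) (n : ℕ) (hne : ∀ k, ¬ n ∣ k → ζ ^ k ≠ 1) (m : ℕ) :
    ζ * (derivative (B (X : K[X]) n m)).eval ζ =
      (B (X : K[X]) n m).eval ζ * ∑ k ∈ range m, lB ζ n k := by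
  apply eval_deriv_prod
  intro k
  unfold lB
  by_cases h : ¬ n ∣ k ∧ Even k
  · simp only [h, if_true, not_false_eq_true, and_self]
    exact l_factor ζ n k hne h.1
  · simp [h]

lemma lA_sub_lB (ζ : K) (n k : ℕ) : lA ζ n k - lB ζ n k = (k : K) * E ζ n k := by
  unfold lA lB E
  by_cases h : n ∣ k
  · simp [h]
  · rcases Nat.even_or_odd k with h2 | h2
    · have : ¬ Odd k := Nat.not_odd_iff_even.mpr h2
      simp [h, h2, this, h2.neg_one_pow]
    · have : ¬ Even k := Nat.not_even_iff_odd.mpr h2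
      simp [h, h2, this, h2.neg_one_pow]

lemma A_eval_ne (ζ : K) (n : ℕ) (hne : ∀ k, ¬ n ∣ k → ζ ^ k ≠ 1) (m : ℕ) :
    (A (X : K[X]) n m).eval ζ ≠ 0 := by
  unfold A
  rw [eval_prod]
  apply prod_ne_zero_iff.mpr
  intro k _
  by_cases h : ¬ n ∣ k ∧ Odd k
  · simp only [h, if_true, not_false_eq_true, and_self, eval_sub, eval_one, eval_pow, eval_X]
    exact sub_ne_zero.mpr (hne k h.1).symm
  · simp [h]

lemma B_eval_ne (ζ : K) (n : ℕ) (hne : ∀ k, ¬ n ∣ k → ζ ^ k ≠ 1) (m : ℕ) :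
    (B (X : K[X]) n m).eval ζ ≠ 0 := by
  unfold B
  rw [eval_prod]
  apply prod_ne_zero_iff.mpr
  intro k _
  by_cases h : ¬ n ∣ k ∧ Even k
  · simp only [h, if_true, not_false_eq_true, and_self, eval_sub, eval_one, eval_pow, eval_X]
    exact sub_ne_zero.mpr (hne k h.1).symm
  · simp [h]

/-- The factor `(1-ζ^k)^{±1}`. -/
noncomputable def G (ζ : K) (n k : ℕ) : K :=
  if n ∣ k then 1 else if Odd k then 1 - ζ ^ k else (1 - ζ ^ k)⁻¹

lemma G_ne (ζ : K) (n : ℕ) (hne : ∀ k, ¬ n ∣ k → ζ ^ k ≠ 1) (k : ℕ) : G ζ n k ≠ 0 := by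
  unfold G
  by_cases h : n ∣ k
  · simp [h]
  · have h1 : (1 - ζ ^ k) ≠ 0 := sub_ne_zero.mpr (hne k h).symm
    by_cases h2 : Odd k
    · simpa [h, h2] using h1
    · simpa [h, h2] using h1

lemma G_add (ζ : K) (n N : ℕ) (hN : Odd N) (hnN : n ∣ N) (hζ : ζ ^ N = 1) (k : ℕ) :
    G ζ n (k + N) = (G ζ n k)⁻¹ := by
  unfold G
  by_cases h : n ∣ k
  · have : n ∣ k + N := dvd_add h hnN
    simp [h, this]
  · have : ¬ n ∣ k + N := fun h' => h ((Nat.dvd_add_left hnN).mp h')
    by_cases h2 : Odd k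
    · have h3 : ¬ Odd (k + N) := Nat.not_odd_iff_even.mpr (h2.add_odd hN)
      simp [h, this, h2, h3, pow_add, hζ]
    · have h3 : Odd (k + N) := (Nat.not_odd_iff_even.mp h2).add_odd hN
      simp [h, this, h2, h3, pow_add, hζ]

lemma AB_ratio (ζ : K) (n : ℕ) (m : ℕ) :
    (A (X : K[X]) n m).eval ζ * ((B (X : K[X]) n m).eval ζ)⁻¹ = ∏ k ∈ range m, G ζ n k := by
  unfold A B G
  rw [eval_prod, eval_prod, ← prod_inv_distrib, ← prod_mul_distrib]
  refine prod_congr rfl fun k _ => ?_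
  by_cases h : n ∣ k
  · simp [h]
  · rcases Nat.even_or_odd k with h2 | h2
    · have : ¬ Odd k := Nat.not_odd_iff_even.mpr h2
      simp [h, h2, this]
    · have : ¬ Even k := Nat.not_even_iff_odd.mpr h2
      simp [h, h2, this]

/-- The key vanishing statement: value and first derivative agree at `ζ`. -/
lemma key (ζ : K) (hζ0 : ζ ≠ 0) (n a N M M' L : ℕ) (hn : Odd n)
    (hM : 2 * M + 1 = n * (2 * M') + a) (ha : 1 ≤ a) (han : a ≤ n) (hN : N = 4 * M + 1)
    (hnN : n ∣ N) (hζ : ζ ^ N = 1) (hne : ∀ k, ¬ n ∣ k → ζ ^ k ≠ 1) :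
    (A (X : K[X]) n (2 * N * L + (2 * M + 1)) * B X n (2 * M + 1) -
        A X n (2 * M + 1) * B X n (2 * N * L + (2 * M + 1))).eval ζ = 0 ∧
    (derivative (A (X : K[X]) n (2 * N * L + (2 * M + 1)) * B X n (2 * M + 1) -
        A X n (2 * M + 1) * B X n (2 * N * L + (2 * M + 1)))).eval ζ = 0 := by
  have hNodd : Odd N := ⟨2 * M, by omega⟩
  set m := 2 * M + 1 with hm
  set m' := 2 * N * L + m with hm'
  have hr : (A (X : K[X]) n m').eval ζ * (B (X : K[X]) n m).eval ζ =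
      (A (X : K[X]) n m).eval ζ * (B (X : K[X]) n m').eval ζ := by
    have h1 := AB_ratio ζ n m'
    have h2 := AB_ratio ζ n m
    rw [hm', prod_shift (G ζ n) N m (G_ne ζ n hne) (G_add ζ n N hNodd hnN hζ) L, ← h2, ← hm'] at h1
    have b1 := B_eval_ne ζ n hne m
    have b2 := B_eval_ne ζ n hne m'
    field_simp at h1
    linear_combination h1
  have hs : ∑ k ∈ range m', lA ζ n k - ∑ k ∈ range m', lB ζ n k =
      ∑ k ∈ range m, lA ζ n k - ∑ k ∈ range m, lB ζ n k := by
    rw [← sum_sub_distrib, ← sum_sub_distrib]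
    simp only [lA_sub_lB]
    exact sum_shift (E ζ n) N m (E_add ζ n N hNodd hnN hζ)
      (E_sym ζ n a N M M' hn hM ha han hN hnN hζ hne) L
  have a1 := A_logderiv ζ n hne m
  have a2 := A_logderiv ζ n hne m'
  have b1 := B_logderiv ζ n hne m
  have b2 := B_logderiv ζ n hne m'
  constructor
  · rw [eval_sub, eval_mul, eval_mul, hr, sub_self]
  · have : ζ * (derivative (A (X : K[X]) n m' * B X n m - A X n m * B X n m')).eval ζ = 0 := by
      rw [derivative_sub, derivative_mul, derivative_mul, eval_sub, eval_add, eval_add, eval_mul,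
        eval_mul, eval_mul, eval_mul]
      linear_combination (B (X : K[X]) n m).eval ζ * a2 + (A (X : K[X]) n m').eval ζ * b1
        - (B (X : K[X]) n m').eval ζ * a1 - (A (X : K[X]) n m).eval ζ * b2
        + (∑ k ∈ range m, lA ζ n k + ∑ k ∈ range m', lB ζ n k) * hr
        + (A (X : K[X]) n m').eval ζ * (B (X : K[X]) n m).eval ζ * hs
    exact (mul_eq_zero.mp this).resolve_left hζ0

end evaluation

lemma A_map {S T : Type*} [CommRing S] [CommRing T] (f : S →+* T) (x : S) (n m : ℕ) :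
    f (A x n m) = A (f x) n m := by
  unfold A
  rw [map_prod]
  refine prod_congr rfl fun k _ => ?_
  by_cases h : ¬ n ∣ k ∧ Odd k <;> simp [h]

lemma B_map {S T : Type*} [CommRing S] [CommRing T] (f : S →+* T) (x : S) (n m : ℕ) :
    f (B x n m) = B (f x) n m := by
  unfold B
  rw [map_prod]
  refine prod_congr rfl fun k _ => ?_
  by_cases h : ¬ n ∣ k ∧ Even k <;> simp [h]

/-- If `ζ` is a root of a rational polynomial and of its derivative, the square of the cyclotomic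
polynomial divides it. -/
lemma sq_dvd_of_root {N : ℕ} (hN : 0 < N) {ζ : ℂ} (hζ : IsPrimitiveRoot ζ N) (D : ℚ[X])
    (h0 : aeval ζ D = 0) (h1 : aeval ζ (derivative D) = 0) : (cyclotomic N ℚ) ^ 2 ∣ D := by
  have hmin : cyclotomic N ℚ = minpoly ℚ ζ := cyclotomic_eq_minpoly_rat hζ hN
  have hirr : Irreducible (cyclotomic N ℚ) := cyclotomic.irreducible_rat hN
  obtain ⟨Q, hQ⟩ : cyclotomic N ℚ ∣ D := by rw [hmin]; exact minpoly.dvd ℚ ζ h0
  have hd : cyclotomic N ℚ ∣ derivative D := by rw [hmin]; exact minpoly.dvd ℚ ζ h1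
  have hsep : IsCoprime (cyclotomic N ℚ) (derivative (cyclotomic N ℚ)) := hirr.separable
  have h2 : cyclotomic N ℚ ∣ derivative (cyclotomic N ℚ) * Q := by
    rw [hQ, derivative_mul] at hd
    exact (dvd_add_left (dvd_mul_right _ _)).mp hd
  have h3 : cyclotomic N ℚ ∣ Q := hsep.dvd_of_dvd_mul_left h2
  obtain ⟨Q', hQ'⟩ := h3
  exact ⟨Q', by rw [hQ, hQ']; ring⟩

lemma one_sub_X_pow_ne (k : ℕ) (hk : 0 < k) : (1 - RatFunc.X ^ k : RatFunc ℚ) ≠ 0 := by
  have h1 : (X ^ k - C 1 : ℚ[X]) ≠ 0 := X_pow_sub_C_ne_zero hk 1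
  intro h
  apply h1
  apply RatFunc.algebraMap_injective ℚ
  rw [map_sub, map_pow, RatFunc.algebraMap_X, map_zero, map_one, map_one]
  linear_combination -h

lemma qPoch_ne (c d M : ℕ) (hc : 0 < c) :
    qPoch (RatFunc.X ^ c : RatFunc ℚ) (RatFunc.X ^ d) M ≠ 0 := by
  unfold qPoch
  apply prod_ne_zero_iff.mpr
  intro j _
  rw [← pow_mul, ← pow_add]
  exact one_sub_X_pow_ne _ (by omega)

/-- **Main theorem.** For every `n ≡ 1 (mod 4)`, `n > 1`, and all positive integers `r > s`,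
`R_r(q) ≡ R_s(q) (mod Φ_{n^s}(q)^2)`. -/
theorem result (n : ℕ) (hn1 : 1 < n) (hn4 : n % 4 = 1) (r s : ℕ) (hs : 0 < s) (hrs : s < r) :
    CongrMod (R n r) (R n s) (cyclotomic (n ^ s) ℚ ^ 2) := by
  have hpow : ∀ t : ℕ, n ^ t % 4 = 1 := by
    intro t
    rw [Nat.pow_mod, hn4]; simp
  have hodd : Odd n := Nat.odd_iff.mpr (by omega)
  -- the quotient form of `R_t`
  have hR : ∀ t : ℕ, 0 < t → R n t = A (RatFunc.X : RatFunc ℚ) n (2 * ((n ^ t - 1) / 4) + 1) /
      B (RatFunc.X : RatFunc ℚ) n (2 * ((n ^ t - 1) / 4) + 1) := by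
    intro t ht
    obtain ⟨u, rfl⟩ := Nat.exists_eq_succ_of_ne_zero (Nat.pos_iff_ne_zero.mp ht)
    have e1 := hpow (u + 1)
    have e2 := hpow u
    have e3 : n ^ (u + 1) = n ^ u * n := pow_succ n u
    set M := (n ^ (u + 1) - 1) / 4 with hMdef
    set M' := (n ^ u - 1) / 4 with hM'def
    have e4 : n ^ (u + 1) = 4 * M + 1 := by omega
    have e5 : n ^ u = 4 * M' + 1 := by omega
    have e6 : 2 * M + 1 = n * (2 * M') + (n + 1) / 2 := by
      have : 4 * M + 1 = (4 * M' + 1) * n := by rw [← e4, ← e5, e3]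
      have h2 : (4 * M' + 1) * n = 2 * (n * (2 * M')) + n := by ring
      omega
    have hsub : u.succ - 1 = u := rfl
    unfold R
    rw [Nat.succ_eq_add_one] at *
    rw [hsub, ← hMdef, ← hM'def]
    rw [qPoch_odd (RatFunc.X : RatFunc ℚ) n ((n + 1) / 2) M M' hodd e6 (by omega) (by omega),
      qPoch_even (RatFunc.X : RatFunc ℚ) n ((n + 1) / 2) M M' hodd e6 (by omega) (by omega)]
    have p1 := qPoch_ne n (2 * n) M' (by omega)
    have p2 := qPoch_ne (2 * n) (2 * n) M' (by omega)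
    rw [show qPoch (RatFunc.X ^ n : RatFunc ℚ) (RatFunc.X ^ (2 * n)) M' *
          A (RatFunc.X : RatFunc ℚ) n (2 * M + 1) * qPoch (RatFunc.X ^ (2 * n)) (RatFunc.X ^ (2 * n)) M' =
          (qPoch (RatFunc.X ^ n : RatFunc ℚ) (RatFunc.X ^ (2 * n)) M' *
            qPoch (RatFunc.X ^ (2 * n)) (RatFunc.X ^ (2 * n)) M') *
              A (RatFunc.X : RatFunc ℚ) n (2 * M + 1) by ring,
      show qPoch (RatFunc.X ^ (2 * n) : RatFunc ℚ) (RatFunc.X ^ (2 * n)) M' *
          B (RatFunc.X : RatFunc ℚ) n (2 * M + 1) * qPoch (RatFunc.X ^ n) (RatFunc.X ^ (2 * n)) M' =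
          (qPoch (RatFunc.X ^ n : RatFunc ℚ) (RatFunc.X ^ (2 * n)) M' *
            qPoch (RatFunc.X ^ (2 * n)) (RatFunc.X ^ (2 * n)) M') *
              B (RatFunc.X : RatFunc ℚ) n (2 * M + 1) by ring]
    exact mul_div_mul_left _ _ (mul_ne_zero p1 p2)
  -- arithmetic data
  obtain ⟨u, rfl⟩ := Nat.exists_eq_succ_of_ne_zero (Nat.pos_iff_ne_zero.mp hs)
  obtain ⟨d, rfl⟩ := Nat.exists_eq_add_of_lt hrs
  rw [Nat.succ_eq_add_one] at *
  have e1 := hpow (u + 1)
  have e2 := hpow u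
  have e3 : n ^ (u + 1) = n ^ u * n := pow_succ n u
  have hN0 : 0 < n ^ (u + 1) := by positivity
  have f1 := hpow (u + 1 + d + 1)
  have f2 := hpow (d + 1)
  have f3 : n ^ (u + 1 + d + 1) = n ^ (u + 1) * n ^ (d + 1) := by
    rw [← pow_add]; rfl
  rw [hR _ (by omega), hR _ (by omega)]
  set N := n ^ (u + 1) with hNdef
  set M := (N - 1) / 4 with hMdef
  set M' := (n ^ u - 1) / 4 with hM'def
  set Mr := (n ^ (u + 1 + d + 1) - 1) / 4 with hMrdef
  set L := (n ^ (d + 1) - 1) / 4 with hLdef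
  have e4 : N = 4 * M + 1 := by omega
  have e5 : n ^ u = 4 * M' + 1 := by omega
  have e6 : 2 * M + 1 = n * (2 * M') + (n + 1) / 2 := by
    have : 4 * M + 1 = (4 * M' + 1) * n := by rw [← e4, ← e5, e3]
    have h2 : (4 * M' + 1) * n = 2 * (n * (2 * M')) + n := by ring
    omega
  have e7 : n ^ (d + 1) = 4 * L + 1 := by omega
  have e8 : 2 * Mr + 1 = 2 * N * L + (2 * M + 1) := by
    have h1 : 4 * Mr + 1 = N * (4 * L + 1) := by rw [← e7, ← f3]; omega
    have h2 : N * (4 * L + 1) = 2 * (2 * N * L) + N := by ring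
    omega
  rw [e8]
  -- the primitive root
  have hζ : IsPrimitiveRoot (Complex.exp (2 * Real.pi * Complex.I / (N : ℂ))) N :=
    Complex.isPrimitiveRoot_exp N (by omega)
  set ζ := Complex.exp (2 * Real.pi * Complex.I / (N : ℂ)) with hζdef
  have hζ0 : ζ ≠ 0 := Complex.exp_ne_zero _
  have hnN : n ∣ N := by rw [e3]; exact dvd_mul_left n _
  have hne : ∀ k, ¬ n ∣ k → ζ ^ k ≠ 1 := by
    intro k hk h
    exact hk (hnN.trans (hζ.dvd_of_pow_eq_one k h))
  obtain ⟨k0, k1⟩ := key ζ hζ0 n ((n + 1) / 2) N M M' L hodd e6 (by omega) (by omega) e4 hnN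
    hζ.pow_eq_one hne
  set m := 2 * M + 1 with hm
  set m' := 2 * N * L + m with hm'
  -- the polynomial difference
  set D : ℚ[X] := A X n m' * B X n m - A X n m * B X n m' with hD
  have hDmap : D.map (algebraMap ℚ ℂ) = A (X : ℂ[X]) n m' * B X n m - A X n m * B X n m' := by
    rw [hD, Polynomial.map_sub, Polynomial.map_mul, Polynomial.map_mul]
    have := fun m => A_map (mapRingHom (algebraMap ℚ ℂ)) (X : ℚ[X]) n m
    have h2 := fun m => B_map (mapRingHom (algebraMap ℚ ℂ)) (X : ℚ[X]) n m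
    simp only [coe_mapRingHom, map_X] at this h2
    rw [this, this, h2, h2]
  have hD0 : aeval ζ D = 0 := by
    rw [← eval_map_algebraMap, hDmap]; exact k0
  have hD1 : aeval ζ (derivative D) = 0 := by
    rw [← eval_map_algebraMap, ← derivative_map, hDmap]; exact k1
  have hdvd : cyclotomic N ℚ ^ 2 ∣ D := sq_dvd_of_root hN0 hζ D hD0 hD1
  -- the denominator
  have hBne : ∀ m, aeval ζ (B (X : ℚ[X]) n m) ≠ 0 := by
    intro m
    have h2 := B_map (mapRingHom (algebraMap ℚ ℂ)) (X : ℚ[X]) n m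
    simp only [coe_mapRingHom, map_X] at h2
    rw [← eval_map_algebraMap, h2]
    exact B_eval_ne ζ n hne m
  have hB0 : ∀ m, B (X : ℚ[X]) n m ≠ 0 := by
    intro m h
    apply hBne m
    rw [h, map_zero]
  have hcop : IsCoprime (B (X : ℚ[X]) n m' * B X n m) (cyclotomic N ℚ) := by
    apply IsCoprime.symm
    rw [(cyclotomic.irreducible_rat hN0).coprime_iff_not_dvd]
    rintro ⟨Q, hQ⟩
    have h0 : aeval ζ (B (X : ℚ[X]) n m' * B X n m) = 0 := by
      rw [hQ, map_mul, cyclotomic_eq_minpoly_rat hζ hN0, minpoly.aeval, zero_mul]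
    rw [map_mul] at h0
    exact (mul_ne_zero (hBne m') (hBne m)) h0
  -- rewriting the difference
  have hX : (RatFunc.X : RatFunc ℚ) = algebraMap ℚ[X] (RatFunc ℚ) X := (RatFunc.algebraMap_X).symm
  have hdiff : A (RatFunc.X : RatFunc ℚ) n m' / B (RatFunc.X : RatFunc ℚ) n m' -
      A (RatFunc.X : RatFunc ℚ) n m / B (RatFunc.X : RatFunc ℚ) n m =
      algebraMap ℚ[X] (RatFunc ℚ) D / algebraMap ℚ[X] (RatFunc ℚ) (B X n m' * B X n m) := by
    have c1 : algebraMap ℚ[X] (RatFunc ℚ) (B X n m') ≠ 0 :=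
      RatFunc.algebraMap_ne_zero (hB0 m')
    have c2 : algebraMap ℚ[X] (RatFunc ℚ) (B X n m) ≠ 0 :=
      RatFunc.algebraMap_ne_zero (hB0 m)
    rw [hX, ← A_map (algebraMap ℚ[X] (RatFunc ℚ)), ← A_map (algebraMap ℚ[X] (RatFunc ℚ)),
      ← B_map (algebraMap ℚ[X] (RatFunc ℚ)), ← B_map (algebraMap ℚ[X] (RatFunc ℚ)), hD]
    rw [map_sub, map_mul, map_mul, map_mul]
    field_simp
  unfold CongrMod
  rw [hdiff]
  set Bp := B (X : ℚ[X]) n m' * B X n m with hBp
  have hBp0 : Bp ≠ 0 := mul_ne_zero (hB0 m') (hB0 m)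
  set F := algebraMap ℚ[X] (RatFunc ℚ) D / algebraMap ℚ[X] (RatFunc ℚ) Bp with hF
  have hden : F.denom ∣ Bp := RatFunc.denom_div_dvd D Bp
  have hnum : F.num * Bp = D * F.denom := by
    apply RatFunc.algebraMap_injective ℚ
    have g1 : algebraMap ℚ[X] (RatFunc ℚ) Bp ≠ 0 := RatFunc.algebraMap_ne_zero hBp0
    have g2 : algebraMap ℚ[X] (RatFunc ℚ) F.denom ≠ 0 :=
      RatFunc.algebraMap_ne_zero (RatFunc.denom_ne_zero F)
    have g3 : algebraMap ℚ[X] (RatFunc ℚ) F.num / algebraMap ℚ[X] (RatFunc ℚ) F.denom =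
        algebraMap ℚ[X] (RatFunc ℚ) D / algebraMap ℚ[X] (RatFunc ℚ) Bp :=
      RatFunc.num_div_denom F
    rw [div_eq_div_iff g2 g1] at g3
    rw [map_mul (algebraMap ℚ[X] (RatFunc ℚ)) F.num Bp,
      map_mul (algebraMap ℚ[X] (RatFunc ℚ)) D F.denom]
    exact g3
  refine ⟨?_, ?_⟩
  · have h1 : cyclotomic N ℚ ^ 2 ∣ F.num * Bp := by
      rw [hnum]; exact dvd_mul_of_dvd_left hdvd _
    exact (hcop.symm.pow_left (m := 2)).dvd_of_dvd_mul_right h1
  · exact (IsCoprime.of_isCoprime_of_dvd_left hcop hden).pow_right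

end Pool.Agent.Results.MP_74870a_nt.FullCongruence
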